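import Pool.Agent.Run7.h463.QNF3

/-!
# `Q(n, m)` has infinitely many finite quotients for explicit `m`, for all `n`

`Q(n, m)` is the quotient of `Aut(F_n)` by the normal closure of the `m`-th power of the Nielsen move
`σ : a_1 ↦ a_2 a_1`, `a_i ↦ a_i` for `i ≥ 2`. In the Lean the basis is `of 0, of 1, ...`, so `a_1 = of 0` and
`a_2 = of 1`.

Theorem. Let `p ^ k ≥ n` be a prime power and let `m` be divisible by `p ^ (k + 1)`. Then `Q(n, m)` has infinitely
many normal subgroups of finite index. More precisely, the class `g` of the inner automorphism given by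
the commutator `[a_1 ^ (p ^ k), a_2 ^ (p ^ k)]` has infinite order in the profinite completion of `Q(n, m)`: for
every `M ≥ 1` there is a normal subgroup of finite index which does not contain `g ^ M`. For example this holds for
`Q(3, 8)`, `Q(3, 9)`, `Q(4, 8)`, `Q(5, 25)` and their multiples, and for all `Q(n, m)` with `p ^ 2 ∣ m`, `p ≥ n`.

Proof. By the starting library (`Pool.Agent.Helper270.QD`) there is a homomorphism `μ` from `F_n` to a finite
group `G` (upper triangular matrices over the field with `p ^ (p ^ k)` elements) with a central element `c` of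
order `p` such that `μ (w) ^ (p ^ k)` is a generator of `⟨c⟩` for all `w` which are not `p`-th powers modulo
commutators, for example for the primitive `w`. There it is used to prove that `Q(n, m)` is infinite, by
affine actions of `F_n` on complex vector spaces of functions on `G`. Here, let `M ≥ 1`, and let `q > M` be a prime
`≡ 1` modulo `p`, and let `V` be the space of the functions `f` on `G` with values in `ℤ/q` such that
`f (c x) = ω f (x)` for a primitive `p`-th root of unity `ω`. Then primitive elements act on `V` through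
elements whose order divides `p ^ (k + 1)` in every action of `F_n` on `V` by affine maps above `μ`. The
automorphisms `α` such that `α` does not change the actions `ρ ∘ β`, `β ∈ Aut(F_n)`, for one of these actions `ρ`, are a
normal subgroup `K` of finite index (since `V` is finite) which contains `σ ^ m`, and if `K` contains the `j`-th
power of the inner automorphism then `q ∣ j`.
-/

set_option autoImplicit false

namespace Pool.Agent.Results.MP_73474e_al.PrimePowers

/-- The quotient of `Aut(F_n)` by the normal closure of the `m`-th power of `σ`. This is `Q(n, m)` if `σ` is a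
Nielsen move. -/
abbrev Q {n : ℕ} (σ : MulAut (FreeGroup (Fin n))) (m : ℕ) : Type :=
  MulAut (FreeGroup (Fin n)) ⧸ Subgroup.normalClosure ({σ ^ m} : Set (MulAut (FreeGroup (Fin n))))

/-- The commutator `[a_1 ^ d, a_2 ^ d]` (the basis is indexed by `0, ..., n - 1`). -/
def w (n : ℕ) (hn : 2 ≤ n) (d : ℕ) : FreeGroup (Fin n) :=
  FreeGroup.of ⟨0, by omega⟩ ^ d * FreeGroup.of ⟨1, by omega⟩ ^ d *
    (FreeGroup.of ⟨0, by omega⟩ ^ d)⁻¹ * (FreeGroup.of ⟨1, by omega⟩ ^ d)⁻¹

theorem eq_nielsen {n : ℕ} (hn : 2 ≤ n) (σ : MulAut (FreeGroup (Fin n)))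
    (h0 : σ (FreeGroup.of ⟨0, by omega⟩) = FreeGroup.of ⟨1, by omega⟩ * FreeGroup.of ⟨0, by omega⟩)
    (h1 : ∀ i : Fin n, i ≠ ⟨0, by omega⟩ → σ (FreeGroup.of i) = FreeGroup.of i) :
    σ = H270Q.nielsen n hn := by
  have h : (σ : MulAut (FreeGroup (Fin n))).toMonoidHom = (H270Q.nielsen n hn).toMonoidHom := by
    apply FreeGroup.ext_hom
    intro i
    change σ (FreeGroup.of i) = H270Q.nielsen n hn (FreeGroup.of i)
    by_cases hi : i = ⟨0, by omega⟩
    · rw [hi, h0, H270Q.nielsen_zero]
    · rw [h1 i hi, H270Q.nielsen_ne hn i hi]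
  apply MulEquiv.ext
  intro y
  exact DFunLike.congr_fun h y

/-- Let `p ^ k ≥ n` be a prime power and `p ^ (k + 1) ∣ m`, and let `σ` be the Nielsen move `a_1 ↦ a_2 a_1` of the free
group `F_n`. Then for every `M ≥ 1` there is a normal subgroup of finite index of `Q(n, m)` which does not
contain the `M`-th power of the class of the inner automorphism given by `[a_1 ^ (p ^ k), a_2 ^ (p ^ k)]`, and
`Q(n, m)` has infinitely many normal subgroups of finite index. -/
theorem result (n : ℕ) (hn : 2 ≤ n) (p k m : ℕ) (hp : p.Prime) (hnk : n ≤ p ^ k)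
    (hm : p ^ (k + 1) ∣ m) (σ : MulAut (FreeGroup (Fin n)))
    (h0 : σ (FreeGroup.of ⟨0, by omega⟩) = FreeGroup.of ⟨1, by omega⟩ * FreeGroup.of ⟨0, by omega⟩)
    (h1 : ∀ i : Fin n, i ≠ ⟨0, by omega⟩ → σ (FreeGroup.of i) = FreeGroup.of i) :
    (∀ M : ℕ, 0 < M → ∃ N : Subgroup (Q σ m), N.Normal ∧ N.FiniteIndex ∧
      (QuotientGroup.mk (MulAut.conj (w n hn (p ^ k))) : Q σ m) ^ M ∉ N) ∧
    Set.Infinite {N : Subgroup (Q σ m) | N.Normal ∧ N.FiniteIndex} := by
  have hw : w n hn (p ^ k) = Pool.Agent.Run7.h463.QNF.ww hn p k := by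
    unfold w Pool.Agent.Run7.h463.QNF.ww
    rw [mul_inv_rev, ← mul_assoc]
  obtain rfl := eq_nielsen hn σ h0 h1
  rw [hw]
  have hs := Pool.Agent.Run7.h463.QNF.surv p k n m hp hn hnk hm
  refine ⟨fun M hM => ?_, Pool.Agent.Run7.h463.QNM.infinite_of_hom _ hs⟩
  obtain ⟨P, _, _, θ, hθ⟩ := hs M hM
  exact ⟨θ.ker, inferInstance, inferInstance, hθ⟩

end Pool.Agent.Results.MP_73474e_al.PrimePowers
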